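import Pool.Agent.H371.LG2.Pub

/-!
# MP_07c73e_al: the groups `T⁺` in all types `(0, n)`, `n ≥ 4`

Let `π = Pi 0 n` be the profinite loop group of type `(0, n)`, `n ≥ 4`, with standard discretification
`π_0 = std 0 n`.  Some element of `Aut_lac(π)` has no positive power which normalizes `T⁺(π_0)`: the
normalizer of `T⁺(π_0)` in `T(π)` has infinite index, and there are infinitely many discretifications
with pairwise different groups `T⁺`.
-/

set_option autoImplicit false

namespace Pool.Agent.Results.MP_07c73e_al.AllGenusZero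

open Pool.Agent.H371.LG.Pub

/-- Grothendieck's normality assertion fails in all types `(0, n)`, `n ≥ 4`. -/
theorem result (n : ℕ) (hn : 4 ≤ n) :
    (∃ φ ∈ AutLac 0 n, ∀ k : ℕ, 0 < k →
      ∃ ψ ∈ TPlus (std 0 n), φ ^ k * ψ * (φ ^ k)⁻¹ ∉ TPlus (std 0 n)) ∧
    ∃ D : ℕ → Subgroup (Pi 0 n), D 0 = std 0 n ∧ (∀ i, IsDisc (D i)) ∧
      Function.Injective fun i => TPlus (D i) :=
  ⟨no_power hn, infinitely_many hn⟩

end Pool.Agent.Results.MP_07c73e_al.AllGenusZero
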